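import Pool.Agent.LibOL36.XT

/-!
# The 1-loop conjecture of Dimofte and Garoufalidis

All definitions are in `Pool/Agent/LibOL36/Defs.lean`: oriented one-cusped ideal triangulations
`Tri N`, the edge equations `EdgeEq`, closed peripheral curves `Curve`, the completeness equations
`Complete`, the 1-loop invariant `oneLoop`, and the adjoint torsion `IsATor` (the Reidemeister
torsion of the dual 2-complex of the triangulation with coefficients in `sl₂`, twisted by the
adjoint holonomy, with respect to Porti's basis `γ ⊗ P`, `∂M ⊗ P` of the homology).
-/

set_option autoImplicit false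

namespace Pool.Agent.Results.MP_ea3d9a_gt.OneLoopConjecture

open Pool.Agent.OL36

/-- Let `T` be an oriented one-cusped ideal triangulation, `z` a solution of the gluing equations
and of the completeness equations, `γ` a closed peripheral curve, `e₀` an edge, `f` a
flattening. (1) Every value of the adjoint torsion along `γ` is the 1-loop invariant up to sign.
(2) If the triangulation is geometric (`Im z j > 0`) and `γ` is not null-homologous in the boundary
torus, then the torsion has a value (its bases exist). (3) For an arbitrary complete solution and a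
curve with non-trivial holonomy the torsion has a value if and only if the 1-loop invariant is not
zero. -/
theorem result {N : ℕ} (T : Tri N) (z : Fin N → ℂ) (hz : ∀ j, z j ≠ 0 ∧ z j ≠ 1)
    (_hE : T.EdgeEq z) (hC : T.Complete z) (γ : Curve T) (e₀ : Fin N)
    (f : Fin 3 → Fin N → ℤ) (hf : T.Flat f) :
    (∀ t, IsATor T z γ t → t = oneLoop T z γ e₀ f ∨ t = -oneLoop T z γ e₀ f) ∧
    ((∀ j, 0 < (z j).im) → ¬ γ.NullHomologous → ∃ t, IsATor T z γ t) ∧
    (∀ g, IsHol T z g → (∀ c : ℂ, γ.hol g ≠ c • (1 : M2)) →
      ((∃ t, IsATor T z γ t) ↔ oneLoop T z γ e₀ f ≠ 0)) :=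
  one_loop T z hz hC γ e₀ f hf

end Pool.Agent.Results.MP_ea3d9a_gt.OneLoopConjecture
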